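import Mathlib

/-!
# Every minimal Hausdorff abelian topological group is precompact: statements

Additive notation.
-/

open scoped Topology
open Filter Set

namespace Pool.Agent.Work.MP_7406cc_gt.PS

/-- `G` is minimal: there is no strictly coarser Hausdorff group topology. -/
def MinG (G : Type) [AddCommGroup G] [τ : TopologicalSpace G] : Prop :=
  ∀ t : TopologicalSpace G, τ ≤ t → @IsTopologicalAddGroup G t _ → @T2Space G t → t = τ

/-- `X` is covered by finitely many translates of `U`. -/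
def Cov {G : Type} [AddCommGroup G] (X U : Set G) : Prop :=
  ∃ F : Set G, F.Finite ∧ ∀ x ∈ X, ∃ f ∈ F, x - f ∈ U

/-- `X` is totally bounded. -/
def TB {G : Type} [AddCommGroup G] [TopologicalSpace G] (X : Set G) : Prop :=
  ∀ U ∈ 𝓝 (0 : G), Cov X U

/-- Some multiple of `G` is inside any given neighbourhood of zero. -/
def StarG (G : Type) [AddCommGroup G] [TopologicalSpace G] : Prop :=
  ∀ U ∈ 𝓝 (0 : G), ∃ N : ℕ, 0 < N ∧ ∀ x : G, N • x ∈ U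

/-- For every neighbourhood of zero some multiple of `G` is covered by finitely many
translates. -/
def Bd (G : Type) [AddCommGroup G] [TopologicalSpace G] : Prop :=
  ∀ U ∈ 𝓝 (0 : G), ∃ k : ℕ, 0 < k ∧ Cov {y : G | ∃ x : G, y = k • x} U

/-- Level `r` is thick with respect to `W`: `p ^ r G` is not covered by finitely many translates
of `p ^ (r + 1) G + W`. -/
def Thick (G : Type) [AddCommGroup G] (p r : ℕ) (W : Set G) : Prop :=
  ¬ ∃ F : Set G, F.Finite ∧ ∀ x : G, ∃ f ∈ F, ∃ y : G, p ^ r • x - f - p ^ (r + 1) • y ∈ W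

/-- Level `r` is thin. -/
def Thin (G : Type) [AddCommGroup G] [TopologicalSpace G] (p r : ℕ) : Prop :=
  ∀ W ∈ 𝓝 (0 : G), ¬ Thick G p r W

/-- Integer combinations of the members of a sequence. -/
noncomputable def lc {G : Type} [AddCommGroup G] (a : ℕ → G) : (ℕ →₀ ℤ) →+ G :=
  (Finsupp.linearCombination ℤ a).toAddMonoidHom

/-- The intersection of the closures of the groups `n! G`. -/
noncomputable def DD (G : Type) [AddCommGroup G] [TopologicalSpace G] [IsTopologicalAddGroup G] :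
    AddSubgroup G :=
  ⨅ n : ℕ, (nsmulAddMonoidHom (α := G) n.factorial).range.topologicalClosure

/-- The part of `i!` prime to `p`. -/
def cp (p i : ℕ) : ℕ := i.factorial / p ^ (i.factorial).factorization p

/-! ### Minimality -/

/-- Key: a group filter which is independent of the topology converges to zero. -/
def S_Key : Prop := ∀ (G : Type) [AddCommGroup G] [TopologicalSpace G] [IsTopologicalAddGroup G]
  [T2Space G], MinG G → ∀ B : Filter G, pure 0 ≤ B →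
  Tendsto (fun p : G × G => p.1 - p.2) (B ×ˢ B) B →
  (∀ x : G, (∀ U ∈ 𝓝 (0 : G), ∀ V ∈ B, ∃ v ∈ V, x - v ∈ U) → x = 0) → B ≤ 𝓝 0

/-- The same for a filter on a group mapped to `G`. -/
def S_KeyHom : Prop := ∀ (G : Type) [AddCommGroup G] [TopologicalSpace G]
  [IsTopologicalAddGroup G] [T2Space G], MinG G → ∀ (A : Type) [AddCommGroup A] (φ : A →+ G)
  (B : Filter A), pure 0 ≤ B → Tendsto (fun p : A × A => p.1 - p.2) (B ×ˢ B) B →
  (∀ W ∈ 𝓝 (0 : G), ∃ U ∈ 𝓝 (0 : G), ∃ V ∈ B, ∀ v ∈ V,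
    (∀ V' ∈ B, ∃ v' ∈ V', φ v - φ v' ∈ U) → φ v ∈ W) →
  Tendsto φ B (𝓝 0)

/-- A closed subgroup of a minimal abelian group is minimal. -/
def S_ClosedSub : Prop := ∀ (G : Type) [AddCommGroup G] [TopologicalSpace G]
  [IsTopologicalAddGroup G] [T2Space G], MinG G → ∀ H : AddSubgroup G, IsClosed (H : Set G) →
  MinG H

/-- A group with a dense minimal subgroup is minimal. -/
def S_DenseMin : Prop := ∀ (G K : Type) [AddCommGroup G] [TopologicalSpace G]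
  [IsTopologicalAddGroup G] [AddCommGroup K] [TopologicalSpace K] [IsTopologicalAddGroup K]
  [T2Space K] (ι : G →+ K), Topology.IsEmbedding ι → DenseRange ι → MinG G → MinG K

/-! ### Selection -/

/-- Neumann: one of finitely many sets covering the group has a big difference set. -/
def S_Neu : Prop := ∀ (G : Type) [AddCommGroup G] (ι : Type) (s : Finset ι) (C : ι → Set G),
  (∀ x : G, ∃ i ∈ s, x ∈ C i) →
  ∃ i ∈ s, Cov (Set.univ : Set G) {z : G | ∃ x ∈ C i, ∃ y ∈ C i, z = x - y}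

/-- Recursive choice of a sequence. -/
def S_SeqSel : Prop := ∀ (α : Type) [Nonempty α] (P : ℕ → (ℕ → α) → α → Prop),
  (∀ n f g y, (∀ i < n, f i = g i) → P n f y → P n g y) →
  (∀ n f, ∃ y, P n f y) → ∃ f : ℕ → α, ∀ n, P n f (f n)

/-- The sequence for the proof of `Bd`. -/
def S_SelF2 : Prop := ∀ (G : Type) [AddCommGroup G] [TopologicalSpace G]
  [IsTopologicalAddGroup G], ¬ Bd G →
  ∃ U₀ ∈ 𝓝 (0 : G), ∃ a : ℕ → G, ∀ c : ℕ →₀ ℤ, (∀ i, |c i| ≤ 2 ^ i) → lc a c ∈ U₀ → c = 0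

/-- Minimal groups satisfy `Bd`. -/
def S_Bdd : Prop := ∀ (G : Type) [AddCommGroup G] [TopologicalSpace G]
  [IsTopologicalAddGroup G] [T2Space G], MinG G → Bd G

/-! ### The divisible part -/

def S_Dcomp : Prop := ∀ (G : Type) [AddCommGroup G] [UniformSpace G] [IsUniformAddGroup G]
  [CompleteSpace G] [T2Space G], Bd G → IsCompact (DD G : Set G)

def S_Dnear : Prop := ∀ (G : Type) [AddCommGroup G] [UniformSpace G] [IsUniformAddGroup G]
  [CompleteSpace G] [T2Space G], Bd G →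
  ∀ U ∈ 𝓝 (0 : G), ∃ n : ℕ, 0 < n ∧ ∀ x : G, ∃ d ∈ DD G, n • x - d ∈ U

def S_Ddiv : Prop := ∀ (G : Type) [AddCommGroup G] [UniformSpace G] [IsUniformAddGroup G]
  [CompleteSpace G] [T2Space G], Bd G →
  ∀ m : ℕ, 0 < m → ∀ d ∈ DD G, ∃ e ∈ DD G, m • e = d

def S_DDmono : Prop := ∀ (G : Type) [AddCommGroup G] [TopologicalSpace G]
  [IsTopologicalAddGroup G] (H : AddSubgroup G), ∀ x ∈ DD H, (x : G) ∈ DD G

/-! ### Characters -/

def S_NSS : Prop := ∀ z : Circle, (∀ k : ℕ, ‖((z ^ (2 ^ k) : Circle) : ℂ) - 1‖ ≤ 1 / 2) → z = 1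

def S_ContC : Prop := ∀ (G : Type) [AddCommGroup G] [TopologicalSpace G]
  [IsTopologicalAddGroup G] (φ : AddChar G Circle), ∀ U ∈ 𝓝 (0 : G),
  (∀ x ∈ U, ‖(φ x : ℂ) - 1‖ ≤ 1 / 2) → Continuous φ

/-- Hyers-Ulam stability for maps into the circle. -/
def S_HU : Prop := ∀ (A : Type) [AddCommGroup A] (q : A → Circle),
  (∀ x y, ‖(q (x + y) : ℂ) - (q x : ℂ) * (q y : ℂ)‖ ≤ 1 / 100) →
  ∃ φ : AddChar A Circle, ∀ x, ‖(φ x : ℂ) - (q x : ℂ)‖ ≤ 1 / 10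

/-- Extension of a power of a character from a subgroup `D` such that multiples of `G` are close
to `D`. -/
def S_Ext : Prop := ∀ (G : Type) [AddCommGroup G] [TopologicalSpace G]
  [IsTopologicalAddGroup G] (D : AddSubgroup G),
  (∀ U ∈ 𝓝 (0 : G), ∃ n : ℕ, 0 < n ∧ ∀ x : G, ∃ d ∈ D, n • x - d ∈ U) →
  ∀ χ : AddChar D Circle, Continuous χ →
  ∃ m : ℕ, 0 < m ∧ ∃ φ : AddChar G Circle, Continuous φ ∧ ∀ d : D, φ (d : G) = (χ d) ^ m

def S_CharD : Prop := ∀ (K : Type) [AddCommGroup K] [TopologicalSpace K]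
  [IsTopologicalAddGroup K] [CompactSpace K] [T2Space K] (x : K), x ≠ 0 →
  ∃ χ : AddChar K Circle, Continuous χ ∧ χ x ≠ 1

def S_CharTop : Prop := ∀ (K : Type) [AddCommGroup K] [TopologicalSpace K]
  [IsTopologicalAddGroup K] [CompactSpace K] [T2Space K], ∀ W ∈ 𝓝 (0 : K),
  ∃ O ∈ 𝓝 (1 : {χ : AddChar K Circle // Continuous χ} → Circle),
    ∀ k : K, (fun χ : {χ : AddChar K Circle // Continuous χ} => χ.1 k) ∈ O → k ∈ W

def S_SurjT : Prop := ∀ (G : Type) [AddCommGroup G] [TopologicalSpace G]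
  [IsTopologicalAddGroup G] (D : AddSubgroup G), IsCompact (D : Set G) →
  (∀ m : ℕ, 0 < m → ∀ d ∈ D, ∃ e ∈ D, m • e = d) →
  ∀ φ : AddChar G Circle, Continuous φ → (∃ d ∈ D, φ d ≠ 1) → ∀ z : Circle, ∃ d ∈ D, φ d = z

/-! ### Reduction to groups with property `StarG` -/

def S_Zorn : Prop := ∀ (G : Type) [AddCommGroup G] [TopologicalSpace G]
  [IsTopologicalAddGroup G] [T2Space G] (D : AddSubgroup G), IsCompact (D : Set G) →
  ∃ Δ : AddSubgroup G, IsClosed (Δ : Set G) ∧ (∀ x : G, ∃ δ ∈ Δ, x - δ ∈ D) ∧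
    ∀ Δ' : AddSubgroup G, IsClosed (Δ' : Set G) → Δ' ≤ Δ → (∀ x : G, ∃ δ ∈ Δ', x - δ ∈ D) →
      Δ' = Δ

def S_RedStar : Prop := ∀ (G : Type) [AddCommGroup G] [UniformSpace G] [IsUniformAddGroup G]
  [CompleteSpace G] [T2Space G], MinG G →
  ∃ Δ : AddSubgroup G, IsClosed (Δ : Set G) ∧ StarG Δ ∧ ∀ x : G, ∃ δ ∈ Δ, x - δ ∈ DD G

/-! ### Groups with property `StarG` -/

def S_PickP : Prop := ∀ (G : Type) [AddCommGroup G] [TopologicalSpace G]
  [IsTopologicalAddGroup G], StarG G → (∀ p : ℕ, p.Prime → Thin G p 0) → TB (Set.univ : Set G)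

def S_Cp : Prop := ∀ p : ℕ, p.Prime → (∀ i, ¬ p ∣ cp p i) ∧
  (∀ n : ℕ, 0 < n → ∀ i r : ℕ, n ≤ i → n ≤ r → n ∣ p ^ (r + 1) * cp p i) ∧
  (∀ n : ℕ, 0 < n → Nat.Coprime p n → ∀ i : ℕ, n ≤ i → n ∣ cp p i)

/-- The selection of the sequence; `R` is the set of levels which are used. -/
def S_SelStar : Prop := ∀ (G : Type) [AddCommGroup G] [TopologicalSpace G]
  [IsTopologicalAddGroup G] (p : ℕ), p.Prime → ∀ (R : ℕ → Prop),
  (∀ s, R s → ∃ W ∈ 𝓝 (0 : G), Thick G p s W) →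
  ∃ W' : ℕ → Set G, (∀ s, R s → W' s ∈ 𝓝 (0 : G)) ∧ ∃ g a : ℕ → G,
    (∀ i, a i = cp p i • g i) ∧
    ∀ i, ∀ s ≤ i, R s → ∀ c : ℕ → ℤ, (∀ j, 0 ≤ c j ∧ c j < (p : ℤ) ^ (i + 1)) → ∀ y : G,
      p ^ s • g i - ∑ j ∈ Finset.range i, c j • a j - p ^ (s + 1) • y ∉ W' s

/-- Independence of the selected sequence. -/
def S_Indep : Prop := ∀ (G : Type) [AddCommGroup G] [TopologicalSpace G]
  [IsTopologicalAddGroup G] (p : ℕ), p.Prime → ∀ (R : ℕ → Prop), (∀ r, R r → ∀ s ≤ r, R s) →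
  ∀ W' : ℕ → Set G, (∀ s, R s → W' s ∈ 𝓝 (0 : G)) → ∀ g a : ℕ → G,
    (∀ i, a i = cp p i • g i) →
    (∀ i, ∀ s ≤ i, R s → ∀ c : ℕ → ℤ, (∀ j, 0 ≤ c j ∧ c j < (p : ℤ) ^ (i + 1)) → ∀ y : G,
      p ^ s • g i - ∑ j ∈ Finset.range i, c j • a j - p ^ (s + 1) • y ∉ W' s) →
  ∀ r, R r → ∃ U ∈ 𝓝 (0 : G), ∀ c : ℕ →₀ ℤ, lc a c ∈ U → ∀ i, r ≤ i → (p : ℤ) ^ (r + 1) ∣ c i

def S_TailTB : Prop := ∀ (G : Type) [AddCommGroup G] [TopologicalSpace G]
  [IsTopologicalAddGroup G] (p ρ : ℕ), p.Prime → StarG G → Thin G p ρ → ∀ a : ℕ → G,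
  (∀ n : ℕ, 0 < n → Nat.Coprime p n → ∃ i₀ : ℕ, ∀ i, i₀ ≤ i → ∃ g : G, a i = n • g) →
  TB {y : G | ∃ c : ℕ →₀ ℤ, y = p ^ ρ • lc a c}

def S_CharFam : Prop := ∀ (G : Type) [AddCommGroup G] [UniformSpace G] [IsUniformAddGroup G]
  [CompleteSpace G] [T2Space G] (m : ℕ), 0 < m → ∀ a : ℕ → G,
  TB {y : G | ∃ c : ℕ →₀ ℤ, y = m • lc a c} →
  ∃ (X : Type) (ψ : X → AddChar (ℕ →₀ ℤ) Circle), ∀ W ∈ 𝓝 (0 : G),
    ∃ O ∈ 𝓝 (1 : X → Circle), ∀ c : ℕ →₀ ℤ, (fun χ => ψ χ (m • c)) ∈ O → m • lc a c ∈ W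

def S_PairComp : Prop := ∀ (X : Type) (x : ℕ → X → Circle), ∀ O ∈ 𝓝 (1 : X → Circle), ∀ n : ℕ,
  ∃ i j, n ≤ i ∧ n ≤ j ∧ i ≠ j ∧ x i * (x j)⁻¹ ∈ O

def S_CaseInf : Prop := ∀ (G : Type) [AddCommGroup G] [TopologicalSpace G]
  [IsTopologicalAddGroup G] [T2Space G], MinG G → StarG G → ∀ p : ℕ, p.Prime →
  (∀ r, ∃ W ∈ 𝓝 (0 : G), Thick G p r W) → False

def S_CaseFin : Prop := ∀ (G : Type) [AddCommGroup G] [UniformSpace G] [IsUniformAddGroup G]
  [CompleteSpace G] [T2Space G], MinG G → StarG G → ∀ p : ℕ, p.Prime → ∀ ρ : ℕ, 0 < ρ →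
  (∀ r < ρ, ∃ W ∈ 𝓝 (0 : G), Thick G p r W) → Thin G p ρ → False

def S_StarTB : Prop := ∀ (G : Type) [AddCommGroup G] [UniformSpace G] [IsUniformAddGroup G]
  [CompleteSpace G] [T2Space G], MinG G → StarG G → TB (Set.univ : Set G)

/-- The theorem of Prodanov and Stoyanov. -/
def S_PS : Prop := ∀ (G : Type) [AddCommGroup G] [TopologicalSpace G] [IsTopologicalAddGroup G]
  [T2Space G], MinG G → TB (Set.univ : Set G)

end Pool.Agent.Work.MP_7406cc_gt.PS
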