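import Pool.Agent.Work.MP_7406cc_gt.PS.Stmts

open scoped Topology
open Filter Set

namespace Pool.Agent.Work.MP_7406cc_gt.PS

namespace HUX

theorem norm_exp_sub_one_le (s : ℝ) : ‖((Circle.exp s : Circle) : ℂ) - 1‖ ≤ |s| := by
  have h := Real.norm_exp_I_mul_ofReal_sub_one_le (x := s)
  rw [Circle.coe_exp, mul_comm]
  simpa using h

theorem norm_div_sub_one (a b : Circle) : ‖((a * b⁻¹ : Circle) : ℂ) - 1‖ = ‖(a : ℂ) - b‖ := by
  have h : ((a * b⁻¹ : Circle) : ℂ) - 1 = ((a : ℂ) - b) * ((b⁻¹ : Circle) : ℂ) := by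
    have h1 : ((b : Circle) : ℂ) * ((b⁻¹ : Circle) : ℂ) = 1 := by
      rw [← Circle.coe_mul, mul_inv_cancel, Circle.coe_one]
    rw [sub_mul, h1, Circle.coe_mul]
  rw [h, norm_mul, Circle.norm_coe, mul_one]

theorem norm_mul_sub_one_le (a b : Circle) :
    ‖((a * b : Circle) : ℂ) - 1‖ ≤ ‖(a : ℂ) - 1‖ + ‖(b : ℂ) - 1‖ := by
  have h : ((a * b : Circle) : ℂ) - 1 = ((a : ℂ) - 1) * (b : ℂ) + ((b : ℂ) - 1) := by
    rw [Circle.coe_mul]; ring
  rw [h]
  refine (norm_add_le _ _).trans ?_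
  rw [norm_mul, Circle.norm_coe, mul_one]

theorem abs_arg_le (z : Circle) (h : ‖(z : ℂ) - 1‖ ≤ 1 / 100) :
    |Complex.arg (z : ℂ)| ≤ 1 / 50 := by
  set t : ℝ := Complex.arg (z : ℂ) with ht
  have hz : Complex.exp (Complex.I * (t : ℂ)) = (z : ℂ) := by
    have := congrArg (fun w : Circle => (w : ℂ)) (Circle.exp_arg z)
    simp only [Circle.coe_exp] at this
    rw [mul_comm, ht]; exact this
  have h1 := Complex.norm_exp_I_mul_ofReal_sub_one t
  rw [hz] at h1
  have habs : |t| ≤ Real.pi := Complex.abs_arg_le_pi _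
  have h2 := Real.mul_le_sin (x := |t| / 2) (by positivity) (by linarith)
  have h3 : ‖2 * Real.sin (t / 2)‖ = 2 * Real.sin (|t| / 2) := by
    have hnn : 0 ≤ Real.sin (|t| / 2) := le_trans (by positivity) h2
    rcases abs_cases t with ⟨e, _⟩ | ⟨e, _⟩
    · rw [e] at hnn ⊢
      rw [Real.norm_eq_abs, abs_of_nonneg (by linarith)]
    · have e' : t / 2 = -(|t| / 2) := by rw [e]; ring
      rw [e', Real.sin_neg, Real.norm_eq_abs, mul_neg, abs_neg, abs_of_nonneg (by linarith)]
  rw [h3] at h1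
  have h4 : 2 * (2 / Real.pi * (|t| / 2)) ≤ 1 / 100 := by linarith
  have hpi : Real.pi < 4 := Real.pi_lt_four
  have hpos := Real.pi_pos
  have h5 : 2 * (2 / Real.pi * (|t| / 2)) = 2 * |t| / Real.pi := by field_simp
  rw [h5, div_le_iff₀ hpos] at h4
  linarith

section
variable {A : Type} [AddCommGroup A] (q : A → Circle)

/-- The doubling defect. -/
noncomputable def e (x : A) : Circle := q (x + x) * (q x * q x)⁻¹

/-- Its argument. -/
noncomputable def t (x : A) : ℝ := Complex.arg (e q x : ℂ)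

theorem exp_t (x : A) : Circle.exp (t q x) = e q x := Circle.exp_arg _

/-- Terms of the correction series. -/
noncomputable def term (x : A) (k : ℕ) : ℝ := t q ((2 ^ k : ℕ) • x) / 2 ^ (k + 1)

/-- The correction. -/
noncomputable def S (x : A) : ℝ := ∑' k, term q x k

/-- The corrected map. -/
noncomputable def ph (x : A) : Circle := q x * Circle.exp (S q x)

variable (hq : ∀ x y, ‖(q (x + y) : ℂ) - (q x : ℂ) * (q y : ℂ)‖ ≤ 1 / 100)
include hq

theorem e_le (x : A) : ‖(e q x : ℂ) - 1‖ ≤ 1 / 100 := by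
  unfold e
  rw [norm_div_sub_one, Circle.coe_mul]
  exact hq x x

theorem t_le (x : A) : |t q x| ≤ 1 / 50 := abs_arg_le _ (e_le q hq x)

theorem term_le (x : A) (k : ℕ) : ‖term q x k‖ ≤ (1 / 50 : ℝ) / 2 / 2 ^ k := by
  unfold term
  rw [Real.norm_eq_abs, abs_div, abs_of_pos (by positivity : (0 : ℝ) < 2 ^ (k + 1))]
  have h := t_le q hq ((2 ^ k : ℕ) • x)
  rw [pow_succ, mul_comm ((2 : ℝ) ^ k) 2, ← div_div]
  gcongr

theorem summable_term (x : A) : Summable (term q x) :=
  Summable.of_norm_bounded (summable_geometric_two' (1 / 50)) (term_le q hq x)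

theorem S_le (x : A) : |S q x| ≤ 1 / 50 := by
  have h := tsum_of_norm_bounded (f := term q x) (hasSum_geometric_two' (1 / 50 : ℝ))
    (term_le q hq x)
  simpa [S] using h

theorem S_double (x : A) : S q (x + x) = 2 * S q x - t q x := by
  have h1 : S q x = term q x 0 + ∑' k, term q x (k + 1) := (summable_term q hq x).tsum_eq_zero_add
  have h2 : ∀ k, term q (x + x) k = 2 * term q x (k + 1) := by
    intro k
    unfold term
    have e1 : (2 ^ k : ℕ) • (x + x) = (2 ^ (k + 1) : ℕ) • x := by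
      rw [← two_nsmul, smul_smul, pow_succ]
    rw [e1]
    field_simp
    ring
  have h3 : S q (x + x) = 2 * ∑' k, term q x (k + 1) := by
    unfold S
    rw [← tsum_mul_left]
    exact tsum_congr h2
  have h4 : term q x 0 = t q x / 2 := by
    unfold term; simp
  rw [h3]
  rw [h4] at h1
  linarith

theorem ph_double (x : A) : ph q (x + x) = ph q x * ph q x := by
  unfold ph
  rw [S_double q hq x]
  have e1 : Circle.exp (2 * S q x - t q x) = Circle.exp (S q x) * Circle.exp (S q x) *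
      (e q x)⁻¹ := by
    rw [Circle.exp_sub, two_mul, Circle.exp_add, exp_t, div_eq_mul_inv]
  rw [e1]
  unfold e
  rw [mul_inv_rev, inv_inv]
  have : q (x + x) * (Circle.exp (S q x) * Circle.exp (S q x) * (q x * q x * (q (x + x))⁻¹)) =
    (q (x + x) * (q (x + x))⁻¹) * (q x * Circle.exp (S q x) * (q x * Circle.exp (S q x))) := by
    ac_rfl
  rw [this, mul_inv_cancel, one_mul]

theorem ph_close (x : A) : ‖(ph q x : ℂ) - (q x : ℂ)‖ ≤ 1 / 50 := by
  have h : ((ph q x : Circle) : ℂ) - (q x : ℂ) =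
      (q x : ℂ) * (((Circle.exp (S q x) : Circle) : ℂ) - 1) := by
    unfold ph; rw [Circle.coe_mul]; ring
  rw [h, norm_mul, Circle.norm_coe, one_mul]
  exact (norm_exp_sub_one_le _).trans (S_le q hq x)

/-- The additivity defect of the corrected map. -/
noncomputable def de (_hq : ∀ x y, ‖(q (x + y) : ℂ) - (q x : ℂ) * (q y : ℂ)‖ ≤ 1 / 100)
    (x y : A) : Circle := ph q (x + y) * (ph q x * ph q y)⁻¹

theorem de_le (x y : A) : ‖(de q hq x y : ℂ) - 1‖ ≤ 1 / 2 := by
  have h : de q hq x y = (q (x + y) * (q x * q y)⁻¹) *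
      Circle.exp (S q (x + y) - (S q x + S q y)) := by
    unfold de ph
    rw [Circle.exp_sub, Circle.exp_add, div_eq_mul_inv]
    simp only [mul_inv_rev]
    ac_rfl
  rw [h]
  refine (norm_mul_sub_one_le _ _).trans ?_
  have h1 : ‖((q (x + y) * (q x * q y)⁻¹ : Circle) : ℂ) - 1‖ ≤ 1 / 100 := by
    rw [norm_div_sub_one, Circle.coe_mul]; exact hq x y
  have h2 := norm_exp_sub_one_le (S q (x + y) - (S q x + S q y))
  have h3 : |S q (x + y) - (S q x + S q y)| ≤ 3 / 50 := by
    have a := abs_le.mp (S_le q hq (x + y))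
    have b := abs_le.mp (S_le q hq x)
    have c := abs_le.mp (S_le q hq y)
    rw [abs_le]
    constructor <;> linarith [a.1, a.2, b.1, b.2, c.1, c.2]
  linarith

theorem de_double (x y : A) : de q hq (x + x) (y + y) = de q hq x y ^ 2 := by
  unfold de
  have e1 : x + x + (y + y) = (x + y) + (x + y) := by abel
  rw [e1, ph_double q hq, ph_double q hq, ph_double q hq, pow_two]
  simp only [mul_inv_rev]
  ac_rfl

theorem de_pow (x y : A) (k : ℕ) :
    de q hq ((2 ^ k : ℕ) • x) ((2 ^ k : ℕ) • y) = de q hq x y ^ (2 ^ k) := by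
  induction k with
  | zero => simp
  | succ k ih =>
    have e1 : ∀ z : A, (2 ^ (k + 1) : ℕ) • z = (2 ^ k : ℕ) • z + (2 ^ k : ℕ) • z := by
      intro z; rw [← two_nsmul, smul_smul, pow_succ, mul_comm]
    rw [e1 x, e1 y, de_double, ih, ← pow_mul, ← pow_succ]

theorem de_one (h : S_NSS) (x y : A) : de q hq x y = 1 := by
  apply h
  intro k
  rw [← de_pow]
  exact de_le q hq _ _

end

end HUX

theorem prf_HU (h : S_NSS) : S_HU := by
  intro A _ q hq
  refine ⟨{ toFun := HUX.ph q, map_zero_eq_one' := ?_, map_add_eq_mul' := ?_ }, ?_⟩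
  · have h0 := HUX.ph_double q hq 0
    rw [add_zero] at h0
    exact (left_eq_mul.mp h0)
  · intro x y
    have h1 := HUX.de_one q hq h x y
    unfold HUX.de at h1
    exact mul_inv_eq_one.mp h1
  · intro x
    exact (HUX.ph_close q hq x).trans (by norm_num)

end Pool.Agent.Work.MP_7406cc_gt.PS
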