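import Pool.Agent.Work.MP_7406cc_gt.PS.Stmts

/-! MP_7406cc_gt, block PS, item Zorn: a minimal closed supplement of a compact subgroup. -/

set_option autoImplicit false

open scoped Topology
open Filter Set

namespace Pool.Agent.Work.MP_7406cc_gt.PS

namespace ZornX

variable {G : Type} [AddCommGroup G] [TopologicalSpace G] [IsTopologicalAddGroup G] [T2Space G]

/-- the closed supplements of `D` (as sets) -/
def Sup (D : AddSubgroup G) : Set (Set G) :=
  {A | ∃ Δ : AddSubgroup G, (Δ : Set G) = A ∧ IsClosed (Δ : Set G) ∧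
    ∀ x : G, ∃ δ ∈ Δ, x - δ ∈ D}

/-- the set of supplements of `x` in `A` -/
def K (D : AddSubgroup G) (x : G) (A : Set G) : Set G := {δ | δ ∈ A ∧ x - δ ∈ D}

theorem K_compact {D : AddSubgroup G} (hD : IsCompact (D : Set G)) (x : G) {A : Set G}
    (hA : IsClosed A) : IsCompact (K D x A) := by
  have h1 : IsCompact ((fun d => x - d) '' (D : Set G)) :=
    hD.image (by fun_prop)
  have h2 : K D x A = ((fun d => x - d) '' (D : Set G)) ∩ A := by
    ext δ
    constructor
    · rintro ⟨h3, h4⟩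
      exact ⟨⟨x - δ, h4, sub_sub_cancel x δ⟩, h3⟩
    · rintro ⟨⟨d, hd, rfl⟩, h3⟩
      refine ⟨h3, ?_⟩
      have e : x - (x - d) = d := by abel
      rw [e]
      exact hd
  rw [h2]
  exact h1.inter_right hA

theorem chain_lb (D : AddSubgroup G) (hD : IsCompact (D : Set G)) (c : Set (Set G))
    (hc : c ⊆ Sup D) (hch : IsChain (· ⊆ ·) c) : ∃ lb ∈ Sup D, ∀ s ∈ c, lb ⊆ s := by
  classical
  rcases c.eq_empty_or_nonempty with rfl | hne
  · refine ⟨Set.univ, ⟨⊤, by simp, by simp, fun x => ⟨x, AddSubgroup.mem_top x, ?_⟩⟩, by simp⟩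
    rw [sub_self]
    exact D.zero_mem
  · let Δ : AddSubgroup G := sInf {E : AddSubgroup G | (E : Set G) ∈ c}
    have hmem : ∀ y : G, y ∈ Δ ↔ ∀ A ∈ c, y ∈ A := by
      intro y
      rw [AddSubgroup.mem_sInf]
      constructor
      · intro h A hA
        obtain ⟨E, hE, _⟩ := hc hA
        have h1 := h E (by
          show (E : Set G) ∈ c
          rw [hE]
          exact hA)
        rw [← hE]
        exact h1
      · intro h E hE
        exact h _ hE
    have hset : (Δ : Set G) = ⋂₀ c := by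
      ext y
      rw [Set.mem_sInter]
      exact hmem y
    refine ⟨(Δ : Set G), ⟨Δ, rfl, ?_, ?_⟩, ?_⟩
    · rw [hset]
      refine isClosed_sInter fun A hA => ?_
      obtain ⟨E, hE, hcl, _⟩ := hc hA
      rw [← hE]
      exact hcl
    · intro x
      have : Nonempty c := hne.to_subtype
      have key : (⋂ A : c, K D x (A : Set G)).Nonempty := by
        refine IsCompact.nonempty_iInter_of_directed_nonempty_isCompact_isClosed _ ?_ ?_ ?_ ?_
        · intro A B
          rcases hch.total A.2 B.2 with h | h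
          · exact ⟨A, fun δ hδ => hδ, fun δ hδ => ⟨h hδ.1, hδ.2⟩⟩
          · exact ⟨B, fun δ hδ => ⟨h hδ.1, hδ.2⟩, fun δ hδ => hδ⟩
        · intro A
          obtain ⟨E, hE, _, hs⟩ := hc A.2
          obtain ⟨δ, hδ, hx⟩ := hs x
          refine ⟨δ, ?_, hx⟩
          rw [← hE]
          exact hδ
        · intro A
          obtain ⟨E, hE, hcl, _⟩ := hc A.2
          rw [hE] at hcl
          exact K_compact hD x hcl
        · intro A
          obtain ⟨E, hE, hcl, _⟩ := hc A.2
          rw [hE] at hcl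
          exact (K_compact hD x hcl).isClosed
      obtain ⟨δ, hδ⟩ := key
      rw [Set.mem_iInter] at hδ
      refine ⟨δ, (hmem δ).2 fun A hA => (hδ ⟨A, hA⟩).1, ?_⟩
      obtain ⟨A, hA⟩ := hne
      exact (hδ ⟨A, hA⟩).2
    · intro s hs
      rw [hset]
      exact Set.sInter_subset_of_mem hs

end ZornX

open ZornX in
theorem prf_Zorn : S_Zorn := by
  intro G _ _ _ _ D hD
  obtain ⟨m, hm⟩ := zorn_superset (Sup D) (fun c hc hch => chain_lb D hD c hc hch)
  obtain ⟨Δ, hΔ, hcl, hs⟩ := hm.1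
  refine ⟨Δ, hcl, hs, fun Δ' hcl' hle hs' => ?_⟩
  have h1 : (Δ' : Set G) ∈ Sup D := ⟨Δ', rfl, hcl', hs'⟩
  have h2 : (Δ' : Set G) ≤ m := by
    rw [← hΔ]
    exact hle
  have h3 := hm.2 h1 h2
  refine le_antisymm hle ?_
  intro y hy
  have h4 : y ∈ m := by
    rw [← hΔ]
    exact hy
  exact h3 h4

end Pool.Agent.Work.MP_7406cc_gt.PS
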