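import Pool.Agent.Work.MP_7406cc_gt.PS.I_Bdd
import Pool.Agent.Work.MP_7406cc_gt.Bd.B01
import Pool.Agent.Work.MP_7406cc_gt.Bd.B02
import Pool.Agent.Work.MP_7406cc_gt.PS.I_HU
import Pool.Agent.Work.MP_7406cc_gt.PS.I_Zorn

namespace Pool.Agent.Work.MP_7406cc_gt.PS

theorem all_Key : S_Key := prf_Key
theorem all_KeyHom : S_KeyHom := prf_KeyHom all_Key
theorem all_ClosedSub : S_ClosedSub := prf_ClosedSub all_Key
theorem all_Bdd : S_Bdd := prf_Bdd all_KeyHom (prf_SelF2 prf_Neu prf_SeqSel)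
theorem all_Ext : S_Ext := prf_Ext (prf_HU prf_NSS) prf_NSS prf_ContC
theorem all_RedStar : S_RedStar := prf_RedStar all_ClosedSub all_Bdd prf_Dcomp prf_Dnear
  (prf_Ddiv prf_Dcomp prf_Dnear) prf_DDmono all_Ext prf_CharD prf_SurjT prf_Zorn
theorem all_SelStar : S_SelStar := prf_SelStar prf_Neu prf_SeqSel
theorem all_Indep : S_Indep := prf_Indep prf_Cp
theorem all_StarTB : S_StarTB := prf_StarTB prf_PickP
  (prf_CaseInf all_KeyHom all_SelStar all_Indep prf_Cp)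
  (prf_CaseFin all_KeyHom all_SelStar all_Indep prf_Cp prf_TailTB (prf_CharFam prf_CharTop)
    prf_PairComp)
theorem all_PS : S_PS := prf_PS prf_DenseMin all_RedStar all_Bdd prf_Dcomp all_ClosedSub
  all_StarTB

end Pool.Agent.Work.MP_7406cc_gt.PS
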