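import Pool.Agent.Work.MP_7406cc_gt.PS.Stmts

/-!
# MP_7406cc_gt, block PS: item Bdd (minimal groups satisfy `Bd`)
-/

open scoped Topology
open Filter Set

namespace Pool.Agent.Work.MP_7406cc_gt.PS

namespace BddX

/-- the basic sets of the filter. -/
def V (n : ℕ) : Set (ℕ →₀ ℤ) := {c | (∀ i < n, c i = 0) ∧ ∀ i, n ≤ i → |c i| ≤ 2 ^ (i - n)}

lemma zero_mem (n : ℕ) : (0 : ℕ →₀ ℤ) ∈ V n := by
  refine ⟨fun i _ => rfl, fun i _ => ?_⟩
  simp

lemma sub_mem {n : ℕ} {c d : ℕ →₀ ℤ} (hc : c ∈ V (n + 1)) (hd : d ∈ V (n + 1)) :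
    c - d ∈ V n := by
  refine ⟨fun i hi => ?_, fun i hi => ?_⟩
  · rw [Finsupp.sub_apply, hc.1 i (by omega), hd.1 i (by omega), sub_zero]
  · rw [Finsupp.sub_apply]
    rcases hi.lt_or_eq with h | h
    · have h1 := hc.2 i h
      have h2 := hd.2 i h
      have h3 : i - n = (i - (n + 1)) + 1 := by omega
      rw [h3, pow_succ]
      calc |c i - d i| ≤ |c i| + |d i| := abs_sub _ _
        _ ≤ 2 ^ (i - (n + 1)) * 2 := by linarith
    · rw [hc.1 i (by omega), hd.1 i (by omega), sub_zero, abs_zero]
      positivity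

lemma anti : Antitone V := by
  apply antitone_nat_of_succ_le
  intro n c hc
  have := sub_mem hc (zero_mem (n + 1))
  rwa [sub_zero] at this

/-- the filter. -/
def B : Filter (ℕ →₀ ℤ) := ⨅ n, 𝓟 (V n)

lemma basis : B.HasBasis (fun _ : ℕ => True) V :=
  hasBasis_iInf_principal anti.directed_ge

end BddX

open BddX in
theorem prf_Bdd (h1 : S_KeyHom) (h2 : S_SelF2) : S_Bdd := by
  intro G _ _ _ _ hG
  by_contra hcon
  obtain ⟨U₀, hU₀, a, ha⟩ := h2 G hcon
  have hmemV : ∀ n, V n ∈ B := fun n => basis.mem_of_mem trivial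
  have key : Tendsto (lc a) B (𝓝 0) := by
    apply h1 G hG (ℕ →₀ ℤ) (lc a) B
    · exact le_iInf fun n => by
        rw [← Filter.principal_singleton, Filter.principal_mono, Set.singleton_subset_iff]
        exact zero_mem n
    · rw [(basis.prod_self).tendsto_iff basis]
      intro n _
      refine ⟨n + 1, trivial, ?_⟩
      rintro ⟨c, d⟩ ⟨hc, hd⟩
      exact sub_mem hc hd
    · intro W hW
      refine ⟨U₀, hU₀, V 0, hmemV 0, ?_⟩
      intro v hv hv'
      have hv0 : v = 0 := by
        set n' := v.support.sup id + 1 with hn'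
        have hsupp : ∀ i, n' ≤ i → v i = 0 := by
          intro i hi
          by_contra hne
          have h3 : i ∈ v.support := Finsupp.mem_support_iff.mpr hne
          have h4 : i ≤ v.support.sup id := Finset.le_sup (f := id) h3
          omega
        obtain ⟨w, hw, hU⟩ := hv' (V n') (hmemV n')
        rw [← map_sub] at hU
        have h3 : v - w = 0 := by
          apply ha _ _ hU
          intro i
          rw [Finsupp.sub_apply]
          rcases lt_or_ge i n' with h | h
          · rw [hw.1 i h, sub_zero]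
            simpa using hv.2 i (Nat.zero_le i)
          · rw [hsupp i h, zero_sub, abs_neg]
            exact (hw.2 i h).trans (pow_le_pow_right₀ (by norm_num) (Nat.sub_le i n'))
        have h4 : v = w := sub_eq_zero.mp h3
        ext i
        rcases lt_or_ge i n' with h | h
        · rw [h4, hw.1 i h]; rfl
        · rw [hsupp i h]; rfl
      rw [hv0, map_zero]
      exact mem_of_mem_nhds hW
  obtain ⟨n, -, hn⟩ := (basis.tendsto_left_iff.mp key) U₀ hU₀
  have hs : Finsupp.single n (1 : ℤ) ∈ V n := by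
    refine ⟨fun i hi => Finsupp.single_eq_of_ne (by omega), fun i hi => ?_⟩
    rcases hi.lt_or_eq with h | h
    · rw [Finsupp.single_eq_of_ne (by omega), abs_zero]
      positivity
    · subst h
      rw [Finsupp.single_eq_same, Nat.sub_self]
      norm_num
  have h3 := hn hs
  have h4 : Finsupp.single n (1 : ℤ) = 0 := by
    apply ha _ _ h3
    intro i
    rcases lt_or_ge i n with h | h
    · rw [hs.1 i h, abs_zero]
      positivity
    · exact (hs.2 i h).trans (pow_le_pow_right₀ (by norm_num) (Nat.sub_le i n))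
  have h5 : Finsupp.single n (1 : ℤ) n = 0 := by rw [h4]; rfl
  rw [Finsupp.single_eq_same] at h5
  exact one_ne_zero h5

end Pool.Agent.Work.MP_7406cc_gt.PS
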